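import Pool.Agent.L7h35.RQ5.Stm

/-!
# Distinct quotients `a_j / (a_i, a_j)`: the recursive construction

From `X ⊆ ℤ^ι` we build `X' = {(N k + x, - N k + y) : 0 ≤ k < W, x, y ∈ X} ⊆ ℤ^(ι ⊕ ι)` (the number
`N k` is added to all coordinates). The positive part of a difference of two elements with
different `k` vanishes in one half, and in the other half it is `N |k - k'| + (x - x')`.
-/

set_option autoImplicit false

open Finset

namespace Pool.Agent.L7h11.RQ

open Pool.Agent.L7h35.RQ5 (T)

open Classical in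
/-- the differences of the vectors in `X` -/
noncomputable def D {ι : Type} (X : Finset (ι → ℤ)) : Finset (ι → ℤ) :=
  (X ×ˢ X).image (fun p => fun i => p.2 i - p.1 i)

theorem mem_D {ι : Type} {X : Finset (ι → ℤ)} {z : ι → ℤ} :
    z ∈ D X ↔ ∃ x ∈ X, ∃ y ∈ X, (fun i => y i - x i) = z := by
  classical
  unfold D
  constructor
  · intro h
    obtain ⟨⟨x, y⟩, hp, rfl⟩ := Finset.mem_image.1 h
    exact ⟨x, (Finset.mem_product.1 hp).1, y, (Finset.mem_product.1 hp).2, rfl⟩
  · rintro ⟨x, hx, y, hy, rfl⟩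
    exact Finset.mem_image.2 ⟨(x, y), Finset.mk_mem_product hx hy, rfl⟩

theorem mem_T {ι : Type} {X : Finset (ι → ℤ)} {z : ι → ℕ} :
    z ∈ T X ↔ ∃ x ∈ X, ∃ y ∈ X, (fun i => (y i - x i).toNat) = z := by
  classical
  unfold T
  constructor
  · intro h
    obtain ⟨⟨x, y⟩, hp, rfl⟩ := Finset.mem_image.1 h
    exact ⟨x, (Finset.mem_product.1 hp).1, y, (Finset.mem_product.1 hp).2, rfl⟩
  · rintro ⟨x, hx, y, hy, rfl⟩
    exact Finset.mem_image.2 ⟨(x, y), Finset.mk_mem_product hx hy, rfl⟩

theorem exists_bound {ι : Type} [Fintype ι] (X : Finset (ι → ℤ)) :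
    ∃ N : ℤ, ∀ x ∈ X, ∀ y ∈ X, ∀ i, |x i - y i| < N := by
  classical
  let f : (ι → ℤ) × (ι → ℤ) → ℤ := fun p => ∑ i, |p.1 i - p.2 i|
  have hf : ∀ p, 0 ≤ f p := fun p => Finset.sum_nonneg fun i _ => abs_nonneg _
  refine ⟨∑ p ∈ X ×ˢ X, f p + 1, ?_⟩
  intro x hx y hy i
  have h2 : f (x, y) ≤ ∑ p ∈ X ×ˢ X, f p :=
    Finset.single_le_sum (fun p _ => hf p) (Finset.mk_mem_product hx hy)
  have h1 : |x i - y i| ≤ f (x, y) :=
    Finset.single_le_sum (s := univ) (f := fun i => |x i - y i|) (fun i _ => abs_nonneg _)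
      (Finset.mem_univ i)
  linarith

/-- the new vectors -/
def mk {ι : Type} (N : ℤ) (q : ℕ × (ι → ℤ) × (ι → ℤ)) : ι ⊕ ι → ℤ :=
  Sum.elim (fun i => N * q.1 + q.2.1 i) (fun i => -(N * q.1) + q.2.2 i)

theorem key {N : ℤ} {k k' : ℕ} {a b : ℤ} (hab : |a - b| < N) (h : k < k') :
    N * k + a < N * k' + b := by
  have h1 : (k : ℤ) + 1 ≤ k' := by exact_mod_cast h
  have h2 := (abs_lt.1 hab).2
  have hN : 0 < N := lt_of_le_of_lt (abs_nonneg _) hab
  nlinarith

theorem mk_inj {ι : Type} [Nonempty ι] {N : ℤ} {X : Finset (ι → ℤ)}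
    (hN : ∀ x ∈ X, ∀ y ∈ X, ∀ i, |x i - y i| < N) {q q' : ℕ × (ι → ℤ) × (ι → ℤ)}
    (h1 : q.2.1 ∈ X) (h2 : q'.2.1 ∈ X) (h : mk N q = mk N q') : q = q' := by
  obtain ⟨k, x, y⟩ := q
  obtain ⟨k', x', y'⟩ := q'
  have ha : ∀ i, N * k + x i = N * k' + x' i := fun i => congrFun h (Sum.inl i)
  have hb : ∀ i, -(N * k) + y i = -(N * k') + y' i := fun i => congrFun h (Sum.inr i)
  obtain ⟨i0⟩ := ‹Nonempty ι›
  have hk : k = k' := by
    rcases lt_trichotomy k k' with hlt | heq | hgt
    · have := key (hN x h1 x' h2 i0) hlt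
      have := ha i0
      omega
    · exact heq
    · have := key (hN x' h2 x h1 i0) hgt
      have := ha i0
      omega
  subst hk
  have hx : x = x' := funext fun i => by have := ha i; omega
  have hy : y = y' := funext fun i => by have := hb i; omega
  rw [hx, hy]

/-- **the step** -/
theorem step {ι : Type} [Fintype ι] [Nonempty ι] (X : Finset (ι → ℤ)) (W : ℕ) :
    ∃ X' : Finset (ι ⊕ ι → ℤ), X'.card = W * X.card ^ 2 ∧
      (T X').card ≤ (T X).card ^ 2 + 2 * W * (D X).card ∧
      (D X').card ≤ 2 * W * (D X).card ^ 2 := by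
  classical
  obtain ⟨N, hN⟩ := exists_bound X
  let B : Finset (ℕ × (ι → ℤ) × (ι → ℤ)) := range W ×ˢ X ×ˢ X
  let X' : Finset (ι ⊕ ι → ℤ) := B.image (mk N)
  have hB : ∀ q ∈ B, q.1 < W ∧ q.2.1 ∈ X ∧ q.2.2 ∈ X := by
    intro q hq
    simpa [B, Finset.mem_product] using hq
  refine ⟨X', ?_, ?_, ?_⟩
  · rw [Finset.card_image_of_injOn]
    · simp [B, Finset.card_product, sq]
    · intro q hq q' hq' h
      exact mk_inj hN (hB q hq).2.1 (hB q' hq').2.1 h
  · let F0 : Finset (ι ⊕ ι → ℕ) := (T X ×ˢ T X).image (fun p => Sum.elim p.1 p.2)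
    let F1 : Finset (ι ⊕ ι → ℕ) := (range W ×ˢ D X).image
      (fun p => Sum.elim (fun i => (N * p.1 + p.2 i).toNat) (fun _ => 0))
    let F2 : Finset (ι ⊕ ι → ℕ) := (range W ×ˢ D X).image
      (fun p => Sum.elim (fun _ => 0) (fun i => (N * p.1 + p.2 i).toNat))
    have hsub : T X' ⊆ F0 ∪ (F1 ∪ F2) := by
      intro z hz
      obtain ⟨u, hu, v, hv, rfl⟩ := mem_T.1 hz
      obtain ⟨q, hq, rfl⟩ := Finset.mem_image.1 hu
      obtain ⟨q', hq', rfl⟩ := Finset.mem_image.1 hv
      obtain ⟨hk, hx, hy⟩ := hB q hq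
      obtain ⟨hk', hx', hy'⟩ := hB q' hq'
      obtain ⟨k, x, y⟩ := q
      obtain ⟨k', x', y'⟩ := q'
      simp only at hk hx hy hk' hx' hy'
      rw [Finset.mem_union, Finset.mem_union]
      rcases lt_trichotomy k k' with hlt | heq | hgt
      · right; left
        refine Finset.mem_image.2 ⟨(k' - k, fun i => x' i - x i), ?_, ?_⟩
        · rw [Finset.mem_product]
          refine ⟨Finset.mem_range.2 (by omega), ?_⟩
          exact mem_D.2 ⟨x, hx, x', hx', rfl⟩
        · funext j
          rcases j with i | i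
          · simp only [mk, Sum.elim_inl]
            congr 1
            push_cast [Nat.cast_sub hlt.le]
            ring
          · simp only [mk, Sum.elim_inr]
            symm
            rw [Int.toNat_eq_zero]
            have := key (hN y' hy' y hy i) hlt
            linarith
      · left
        subst heq
        refine Finset.mem_image.2 ⟨(fun i => (x' i - x i).toNat, fun i => (y' i - y i).toNat), ?_, ?_⟩
        · rw [Finset.mem_product]
          exact ⟨mem_T.2 ⟨x, hx, x', hx', rfl⟩, mem_T.2 ⟨y, hy, y', hy', rfl⟩⟩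
        · funext j
          rcases j with i | i
          · simp only [mk, Sum.elim_inl]
            congr 1
            ring
          · simp only [mk, Sum.elim_inr]
            congr 1
            ring
      · right; right
        refine Finset.mem_image.2 ⟨(k - k', fun i => y' i - y i), ?_, ?_⟩
        · rw [Finset.mem_product]
          refine ⟨Finset.mem_range.2 (by omega), ?_⟩
          exact mem_D.2 ⟨y, hy, y', hy', rfl⟩
        · funext j
          rcases j with i | i
          · simp only [mk, Sum.elim_inl]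
            symm
            rw [Int.toNat_eq_zero]
            have := key (hN x' hx' x hx i) hgt
            linarith
          · simp only [mk, Sum.elim_inr]
            congr 1
            push_cast [Nat.cast_sub hgt.le]
            ring
    have h0 : F0.card ≤ (T X).card ^ 2 := by
      refine Finset.card_image_le.trans ?_
      rw [Finset.card_product, sq]
    have h1 : F1.card ≤ W * (D X).card := by
      refine Finset.card_image_le.trans ?_
      rw [Finset.card_product, Finset.card_range]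
    have h2 : F2.card ≤ W * (D X).card := by
      refine Finset.card_image_le.trans ?_
      rw [Finset.card_product, Finset.card_range]
    have h3 := Finset.card_le_card hsub
    have h4 := Finset.card_union_le F0 (F1 ∪ F2)
    have h5 := Finset.card_union_le F1 F2
    nlinarith
  · let G : Finset (ι ⊕ ι → ℤ) := (Ioo (-(W : ℤ)) W ×ˢ D X ×ˢ D X).image
      (fun p => Sum.elim (fun i => N * p.1 + p.2.1 i) (fun i => -(N * p.1) + p.2.2 i))
    have hsub : D X' ⊆ G := by
      intro z hz
      obtain ⟨u, hu, v, hv, rfl⟩ := mem_D.1 hz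
      obtain ⟨q, hq, rfl⟩ := Finset.mem_image.1 hu
      obtain ⟨q', hq', rfl⟩ := Finset.mem_image.1 hv
      obtain ⟨hk, hx, hy⟩ := hB q hq
      obtain ⟨hk', hx', hy'⟩ := hB q' hq'
      obtain ⟨k, x, y⟩ := q
      obtain ⟨k', x', y'⟩ := q'
      simp only at hk hx hy hk' hx' hy'
      refine Finset.mem_image.2 ⟨((k' : ℤ) - k, fun i => x' i - x i, fun i => y' i - y i), ?_, ?_⟩
      · rw [Finset.mem_product, Finset.mem_product]
        refine ⟨Finset.mem_Ioo.2 ⟨by simp only; omega, by simp only; omega⟩,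
          mem_D.2 ⟨x, hx, x', hx', rfl⟩, mem_D.2 ⟨y, hy, y', hy', rfl⟩⟩
      · funext j
        rcases j with i | i
        · simp only [mk, Sum.elim_inl]
          ring
        · simp only [mk, Sum.elim_inr]
          ring
    refine (Finset.card_le_card hsub).trans (Finset.card_image_le.trans ?_)
    rw [Finset.card_product, Finset.card_product, Int.card_Ioo]
    have h1 : ((W : ℤ) - -(W : ℤ) - 1).toNat ≤ 2 * W := by omega
    calc _ ≤ 2 * W * ((D X).card * (D X).card) := Nat.mul_le_mul_right _ h1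
      _ = _ := by ring

/-- **the sets** -/
theorem sets (m : ℕ) : ∃ (ι : Type) (_ : Fintype ι) (_ : Nonempty ι) (e c : ℕ), e + 1 = 2 ^ (m + 1) ∧
    ∀ W : ℕ, 1 ≤ W → ∃ X : Finset (ι → ℤ), X.card = W ^ e ∧ (T X).card ≤ c * W ^ 2 ^ m ∧
      (D X).card ≤ c * W ^ e := by
  classical
  induction m with
  | zero =>
    refine ⟨Unit, inferInstance, inferInstance, 1, 2, rfl, fun W hW => ?_⟩
    refine ⟨(range W).image (fun k : ℕ => fun _ : Unit => (k : ℤ)), ?_, ?_, ?_⟩
    · rw [Finset.card_image_of_injective, Finset.card_range, pow_one]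
      intro a b hab
      have := congrFun hab ()
      simpa using this
    · have hsub : T ((range W).image (fun k : ℕ => fun _ : Unit => (k : ℤ))) ⊆
          (range W).image (fun k : ℕ => fun _ : Unit => k) := by
        intro z hz
        obtain ⟨u, hu, v, hv, rfl⟩ := mem_T.1 hz
        obtain ⟨a, ha, rfl⟩ := Finset.mem_image.1 hu
        obtain ⟨b, hb, rfl⟩ := Finset.mem_image.1 hv
        rw [Finset.mem_range] at ha hb
        refine Finset.mem_image.2 ⟨b - a, Finset.mem_range.2 (by omega), ?_⟩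
        funext i
        simp only
        omega
      refine (Finset.card_le_card hsub).trans (Finset.card_image_le.trans ?_)
      rw [Finset.card_range]
      simp
      omega
    · have hsub : D ((range W).image (fun k : ℕ => fun _ : Unit => (k : ℤ))) ⊆
          (Ioo (-(W : ℤ)) W).image (fun k => fun _ : Unit => k) := by
        intro z hz
        obtain ⟨u, hu, v, hv, rfl⟩ := mem_D.1 hz
        obtain ⟨a, ha, rfl⟩ := Finset.mem_image.1 hu
        obtain ⟨b, hb, rfl⟩ := Finset.mem_image.1 hv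
        rw [Finset.mem_range] at ha hb
        exact Finset.mem_image.2 ⟨(b : ℤ) - a, Finset.mem_Ioo.2 ⟨by omega, by omega⟩, rfl⟩
      refine (Finset.card_le_card hsub).trans (Finset.card_image_le.trans ?_)
      rw [Int.card_Ioo, pow_one]
      omega
  | succ m ih =>
    obtain ⟨ι, h1, h2, e, c, he, h⟩ := ih
    refine ⟨ι ⊕ ι, inferInstance, inferInstance, 2 * e + 1, 2 * c ^ 2 + 2 * c, ?_, fun W hW => ?_⟩
    · rw [pow_succ 2 (m + 1), ← he]
      ring
    · obtain ⟨X, hX, hT, hD⟩ := h W hW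
      obtain ⟨X', hX', hT', hD'⟩ := step X W
      refine ⟨X', ?_, ?_, ?_⟩
      · rw [hX', hX]
        ring
      · refine hT'.trans ?_
        have h3 : W * W ^ e = W ^ 2 ^ (m + 1) := by
          rw [← he]
          ring
        have h4 : (W ^ 2 ^ m) ^ 2 = W ^ 2 ^ (m + 1) := by
          rw [← pow_mul, pow_succ]
        calc (T X).card ^ 2 + 2 * W * (D X).card
            ≤ (c * W ^ 2 ^ m) ^ 2 + 2 * W * (c * W ^ e) :=
              Nat.add_le_add (Nat.pow_le_pow_left hT 2) (Nat.mul_le_mul_left _ hD)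
          _ = c ^ 2 * (W ^ 2 ^ m) ^ 2 + 2 * c * (W * W ^ e) := by ring
          _ = (c ^ 2 + 2 * c) * W ^ 2 ^ (m + 1) := by rw [h3, h4]; ring
          _ ≤ (2 * c ^ 2 + 2 * c) * W ^ 2 ^ (m + 1) := Nat.mul_le_mul_right _ (by nlinarith)
      · refine hD'.trans ?_
        calc 2 * W * (D X).card ^ 2 ≤ 2 * W * (c * W ^ e) ^ 2 :=
              Nat.mul_le_mul_left _ (Nat.pow_le_pow_left hD 2)
          _ = (2 * c ^ 2) * W ^ (2 * e + 1) := by ring
          _ ≤ (2 * c ^ 2 + 2 * c) * W ^ (2 * e + 1) := Nat.mul_le_mul_right _ (by omega)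

end Pool.Agent.L7h11.RQ
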